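import Pool.Agent.Work.MP_8d13b5_lc.Fg.AllFamilies
import Pool.Agent.Work.MP_8d13b5_lc.Fm.AllS
import Pool.Agent.Work.MP_8d13b5_lc.Fm.ModD

set_option autoImplicit false

namespace Pool.Agent.Results.MP_8d13b5_lc.AllFamilies

open Polynomial Finset

/-- The families: `F = X ^ d + F_(d-1)(t) X ^ (d-1) + ... + F_0(t)`, `d ≥ 1`, is a polynomial in `X` whose
coefficients `F_i = F.coeff i` are arbitrary integer polynomials in the parameter `t`, `F_0 ≠ 0`. -/
structure Fam (d : ℕ) (F : ℤ[X][X]) : Prop where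
  monic : F.Monic
  deg : F.natDegree = d
  pos : 1 ≤ d
  ne : F.coeff 0 ≠ 0

/-- the height of a rational number: the larger of the numerator and the denominator -/
def height (t : ℚ) : ℕ := max t.num.natAbs t.den

/-- `v` satisfies the recurrence with the characteristic polynomial `F(t, X)`:
`v_(n+d) + F_(d-1)(t) v_(n+d-1) + ... + F_0(t) v_n = 0` -/
def Rec (F : ℤ[X][X]) (t : ℚ) (v : ℕ → ℚ) : Prop :=
  ∀ n, ∑ i ∈ range (F.natDegree + 1), aeval t (F.coeff i) * v (n + i) = 0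

/-- `z_0, ..., z_(d-1)` are at most `B` in absolute value -/
def Bound (d B : ℕ) (z : ℕ → ℤ) : Prop := ∀ i < d, (z i).natAbs ≤ B

/-- the polynomial `F(t, X)` has no multiple roots -/
def Simple (F : ℤ[X][X]) (t : ℚ) : Prop :=
  (F.map ((aeval t : ℤ[X] →ₐ[ℤ] ℚ) : ℤ[X] →+* ℚ)).Separable

/-- the modulus `(2 d ^ 2)!` -/
def modulus (d : ℕ) : ℕ := (2 * d ^ 2).factorial

/-- **The Skolem Problem is decidable on every one-parameter family of linear recurrences.** Let
`F(t, X)` be an arbitrary family of order `d`; `T` is the height of the rational number `t`, and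
`F_0(t) ≠ 0`.
(1) There is `C` such that for all `t` and all solutions `v` of the recurrence of `F(t, X)` with integer
initial values of absolute value at most `B`: `v` vanishes on the whole class modulo `(2 d ^ 2)!` of each
of its zeros `n ≥ (B T + 2) ^ C`, and of each of its zeros `n ≥ C (log₂ (B T + 2) + 1)` if `F(t, X)` has
no multiple roots.
(2) One primitive recursive procedure decides from the initial values and `t` whether `v` has a zero. -/
theorem result (d : ℕ) (F : ℤ[X][X]) (hF : Fam d F) :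
    (∃ C : ℕ, ∀ t : ℚ, aeval t (F.coeff 0) ≠ 0 →
      ∀ (z : ℕ → ℤ) (v : ℕ → ℚ), (∀ i < d, v i = z i) → Rec F t v → ∀ B : ℕ, Bound d B z →
        (∀ n, (B * height t + 2) ^ C ≤ n → v n = 0 →
          ∀ k, v (n % modulus d + k * modulus d) = 0) ∧
        (Simple F t → ∀ n, C * (Nat.log 2 (B * height t + 2) + 1) ≤ n → v n = 0 →
          ∀ k, v (n % modulus d + k * modulus d) = 0)) ∧
    ∃ A : List ℤ × (ℤ × ℤ) → Bool, Primrec A ∧
      ∀ t : ℚ, aeval t (F.coeff 0) ≠ 0 → ∀ (x : List ℤ) (v : ℕ → ℚ), x.length = d →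
        (∀ i < d, v i = x.getD i 0) → Rec F t v →
          (A (x, (t.num, (t.den : ℤ))) = true ↔ ∃ n, v n = 0) := by
  have hF' : Pool.Agent.Work.MP_8d13b5_lc.Fm.FamilyReduction.Fam d F :=
    ⟨hF.monic, hF.deg, hF.pos, hF.ne⟩
  obtain ⟨⟨M, C, hM, h1⟩, ⟨A, hA, hA2⟩, -⟩ := Pool.Agent.Work.MP_8d13b5_lc.Fg.AllFamilies.final
    Pool.Agent.Work.MP_8d13b5_lc.Fm.rSHN d F hF'
  refine ⟨⟨C, fun t ht z v hz hv B hB => ?_⟩, A, hA, fun t ht x v hx hi hv =>
    (hA2 t ht x hx).trans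
      (Pool.Agent.Work.MP_8d13b5_lc.Fm.FamilyReduction.zeroQ_iff hF' t x v hv hi)⟩
  obtain ⟨f, hf⟩ : ∃ f : ℚ[X], f = F.map ((aeval t : ℤ[X] →ₐ[ℤ] ℚ) : ℤ[X] →+* ℚ) := ⟨_, rfl⟩
  have hfm : f.Monic := by
    rw [hf]
    exact hF.monic.map _
  have hfd : f.natDegree = d := by
    rw [hf, hF.monic.natDegree_map, hF.deg]
  have hf0 : f.coeff 0 ≠ 0 := by
    rw [hf, coeff_map]
    exact ht
  have hfv : Pool.Agent.Work.MP_8d13b5_lc.Pd.Sol f v := by
    intro n
    rw [hfd, ← hF.deg, ← hv n]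
    refine Finset.sum_congr rfl fun i _ => ?_
    rw [hf, coeff_map]
    rfl
  have key : ∀ n, (∀ k, v (n % M + k * M) = 0) → ∀ k, v (n % modulus d + k * modulus d) = 0 := by
    intro n hn k
    have h := Pool.Agent.Work.MP_8d13b5_lc.Fm.ModD.class_mod f hfm hf0 v hfv M hM n hn k
    rw [hfd] at h
    exact h
  obtain ⟨p1, p2⟩ := h1 t ht z v hz hv B hB
  exact ⟨fun n hn hn0 => key n (p1 n hn hn0), fun hs n hn hn0 => key n (p2 hs n hn hn0)⟩

end Pool.Agent.Results.MP_8d13b5_lc.AllFamilies
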