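import Pool.Agent.Work.MP_8d13b5_lc.Fm.EveryFamilyProof

set_option autoImplicit false

namespace Pool.Agent.Results.MP_8d13b5_lc.EveryFamily

open Pool.Agent.Work.MP_8d13b5_lc.Fm.EveryFamily Polynomial

/-- **The Skolem Problem in all one-parameter families of linear recurrences, for all rational
parameters and all initial values, with an elementary bound.** There is a number `h` with the
following properties; `E h` is the iterated exponential.

(1) Zeros. Let `C = E h (d + s)`. For all `d`, `s` there is `N ≤ C` such that for all families `F` of order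
`d`, degree at most `s` and coefficients at most `H` in which no two roots have a constant quotient
other than a root of unity, there is `M ≤ d` (`M = 1` if the roots are simple) such that for all
rational `t` of height `T ≥ (C H) ^ C`, all solutions `v` of the recurrence of `F(t, X)` with integer initial
values and all `q < N`: either `v_(q + N n) = 0` for all `n`, or the `n` with `v_(q + N n) = 0` satisfy
`n ≤ (B T) ^ C`, and all except at most `M - 1` of them satisfy `T ^ n ≤ (B T) ^ C`, where `B` bounds the
initial values.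

(2) Decision. One primitive recursive procedure decides, from the coefficients of `F`, the initial
values and `t`, whether the solution has a zero, correctly for all these families of all orders,
degrees and heights and all these `t`.

(3) Examples with `2 k` roots of equal modulus. Let `C = E h k`, let `a_1, ..., a_k`, `r` be nonzero integers
of absolute value at most `A`, the squares `a_j ^ 2` different, and `|q| ≥ (C A) ^ C`. Let `u` be a nonzero
integer solution of the recurrence with the characteristic polynomial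
`(X - r) ∏_(j ≤ k) (X ^ 2 - a_j X + q)`, `|u_0|, ..., |u_(2k)| ≤ B`. Then `u_n = 0` implies `|q| ^ n ≤ (B |q|) ^ C`. -/
theorem result : ∃ h : ℕ,
    (∀ d s : ℕ, ∃ N : ℕ, 1 ≤ N ∧ N ≤ E h (d + s) ∧ ∀ (H : ℕ) (F : ℤ[X][X]), Fam d s H F → Free F →
      ∃ M : ℕ, 1 ≤ M ∧ M ≤ d ∧ (Simple F → M = 1) ∧
        ∀ t : ℚ, (E h (d + s) * H) ^ E h (d + s) ≤ height t →
        ∀ (z : ℕ → ℤ) (v : ℕ → ℚ), (∀ i < d, v i = z i) → Rec F t v →
          ∀ q < N, Zeros d M (E h (d + s)) (height t) z (fun n => v (q + N * n))) ∧
    (∃ A : (List (List ℤ) × List ℤ) × (ℤ × ℤ) → Bool, Primrec A ∧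
      ∀ (d s H : ℕ) (L : List (List ℤ)), Fam d s H (pol L) → Free (pol L) →
        ∀ t : ℚ, (E h (d + s) * H) ^ E h (d + s) ≤ height t →
        ∀ (x : List ℤ) (v : ℕ → ℚ), x.length = d → (∀ i < d, v i = x.getD i 0) →
          Rec (pol L) t v → (A ((L, x), (t.num, (t.den : ℤ))) = true ↔ ∃ n, v n = 0)) ∧
    (∀ (k : ℕ) (a : Fin k → ℤ) (r q : ℤ) (A : ℕ), 1 ≤ k → (∀ j, a j ≠ 0 ∧ (a j).natAbs ≤ A) →
      r ≠ 0 ∧ r.natAbs ≤ A → (∀ i j, i ≠ j → a i ^ 2 ≠ a j ^ 2) →
      (E h k * A) ^ E h k ≤ q.natAbs → ∀ u : ℕ → ℤ, RecZ (exa k a r q) u →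
        (∀ n, u n = 0) ∨ ∀ B : ℕ, Bound (2 * k + 1) B u →
          ∀ n, u n = 0 → q.natAbs ^ n ≤ (B * q.natAbs) ^ E h k) :=
  main

end Pool.Agent.Results.MP_8d13b5_lc.EveryFamily
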