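import Pool.Agent.Work.MP_8d13b5_lc.Ex.PartF

/-!
# MP_8d13b5_lc: an open example of order five and families of all orders, explicit

The Skolem Problem for the recurrence
`u (n + 5) = 9 u (n + 4) - 10 u (n + 3) + 522 u (n + 2) - 4745 u (n + 1) + 4225 u n`
with characteristic polynomial `(X - 1) (X ^ 2 - 16 X + 65) (X ^ 2 + 8 X + 65)` (the characteristic
roots are `8 ± i`, `-4 ± 7 i` and `1`), and the general theorem behind it. All constants are explicit
numbers.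
-/

set_option autoImplicit false

open Finset Polynomial

namespace Pool.Agent.Results.MP_8d13b5_lc.GaussianPade

/-- `s` satisfies the linear recurrence with characteristic polynomial `f`. -/
def Rec {A : Type} [CommRing A] (f : A[X]) (s : ℕ → A) : Prop :=
  ∀ n, ∑ i ∈ range (f.natDegree + 1), f.coeff i * s (n + i) = 0

/-- The recurrence of order five. -/
def RecFive (u : ℕ → ℤ) : Prop := ∀ n, u (n + 5) =
  9 * u (n + 4) - 10 * u (n + 3) + 522 * u (n + 2) - 4745 * u (n + 1) + 4225 * u n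

/-- `v` satisfies the linear recurrence with the coefficients `a`, of length at least one and with
last coefficient different from zero. -/
def HasRec (a : List ℤ) (v : ℕ → ℤ) : Prop := 1 ≤ a.length ∧ a.getD (a.length - 1) 0 ≠ 0 ∧
  ∀ n : ℕ, v (n + a.length) = ∑ j ∈ range a.length, a.getD j 0 * v (n + a.length - 1 - j)

/-- The data of the family: `ρ ^ T` is a unit times `β = t - (t - 1) i` or its conjugate, `t ≥ 120`;
`R ≥ 1` and `0 < lam ≤ 1` satisfy `40000 ^ 2 R ^ (22 T) exp lam ≤ |β| ^ 18`; `h` is a monic polynomial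
over the Gaussian integers of degree at least one with all roots at most `R` in absolute value; `W`
satisfies the recurrence of `h` and its first `deg h` terms are at most `U ≥ 1` in absolute value;
`c` is an integer different from zero. -/
structure Fam (ρ : GaussianInt) (T : ℕ) (t : ℤ) (R lam : ℝ) (h : GaussianInt[X])
    (W : ℕ → GaussianInt) (U : ℝ) (c : ℤ) : Prop where
  t_ge : 120 ≤ t
  T_ge : 1 ≤ T
  assoc : Associated (ρ ^ T) ⟨t, 1 - t⟩ ∨ Associated (ρ ^ T) ⟨t, t - 1⟩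
  R_ge : 1 ≤ R
  lam_pos : 0 < lam
  lam_le : lam ≤ 1
  gap : 40000 ^ 2 * R ^ (22 * T) * Real.exp lam ≤ ((t : ℝ) ^ 2 + ((t : ℝ) - 1) ^ 2) ^ 9
  monic : h.Monic
  deg : 1 ≤ h.natDegree
  roots : ∀ z : ℂ, (h.map GaussianInt.toComplex).eval z = 0 → ‖z‖ ≤ R
  recW : Rec h W
  U_ge : 1 ≤ U
  init : ∀ i < h.natDegree, ‖GaussianInt.toComplex (W i)‖ ≤ U
  c_ne : c ≠ 0

/-- The bounds with the numbers `A`, `B`, `C`.

(1) For all integers `t ≥ 120`, all `m` and all Gaussian integers `z` divisible by `β ^ m`,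
`β = t - (t - 1) i`: if `Re z ≠ 0` and `m ≥ A + 12000 (1 + log t + log |Re z|)`, then
`|Im z| ^ 11 ≥ (y ^ 10 / 40000) ^ m`, `y = |β| ^ 2`.

(2) For all data of the family, all zeros `n` of the sequence `c + Re (ρ ^ n W n)` are at most
`B T + (T / lam) (24200 (1 + log t + log |c|) + 44 log U + 44 d log (88 d T / lam))`, `d = deg h`.

(3) All zeros `n` of all integer sequences `u ≠ 0` with
`u (n + 5) = 9 u (n + 4) - 10 u (n + 3) + 522 u (n + 2) - 4745 u (n + 1) + 4225 u n` are at most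
`C + 300000 log (|u_0| + ... + |u_4|)`. -/
def Bounds (A B C : ℝ) : Prop :=
  (∀ (m : ℕ) (t : ℤ) (z : GaussianInt), 120 ≤ t → (⟨t, 1 - t⟩ : GaussianInt) ^ m ∣ z →
    z.re ≠ 0 → A + 12000 * (1 + Real.log t + Real.log |(z.re : ℝ)|) ≤ m →
    (((t : ℝ) ^ 2 + ((t : ℝ) - 1) ^ 2) ^ 10 / 40000) ^ m ≤ |(z.im : ℝ)| ^ 11) ∧
  (∀ (ρ : GaussianInt) (T : ℕ) (t : ℤ) (R lam : ℝ) (h : GaussianInt[X]) (W : ℕ → GaussianInt)
    (U : ℝ) (c : ℤ), Fam ρ T t R lam h W U c → ∀ n : ℕ, c + (ρ ^ n * W n).re = 0 →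
    (n : ℝ) ≤ B * T + T / lam * (24200 * (1 + Real.log t + Real.log |(c : ℝ)|) +
      44 * Real.log U + 44 * h.natDegree * Real.log (88 * h.natDegree * T / lam))) ∧
  (∀ u : ℕ → ℤ, RecFive u → u ≠ 0 → ∀ n, u n = 0 →
    (n : ℝ) ≤ C + 300000 * Real.log (∑ j ∈ range 5, |(u j : ℝ)|))

theorem yy_real (t : ℤ) : (Pool.Agent.Work.MP_8d13b5_lc.Ex.yy t : ℝ) =
    (t : ℝ) ^ 2 + ((t : ℝ) - 1) ^ 2 := by
  have h := Pool.Agent.Work.MP_8d13b5_lc.Ex.FamTX.yy_cast t
  have h2 : (((Pool.Agent.Work.MP_8d13b5_lc.Ex.yy t : ℕ) : ℤ) : ℝ) =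
      ((t ^ 2 + (t - 1) ^ 2 : ℤ) : ℝ) := by rw [h]
  push_cast at h2
  exact h2

theorem assoc_star {ρ : GaussianInt} {T : ℕ} {t : ℤ}
    (h : Associated (ρ ^ T) ⟨t, 1 - t⟩ ∨ Associated (ρ ^ T) ⟨t, t - 1⟩) :
    Associated (ρ ^ T) (Pool.Agent.Work.MP_8d13b5_lc.Ex.bet t) ∨
      Associated (ρ ^ T) (star (Pool.Agent.Work.MP_8d13b5_lc.Ex.bet t)) := by
  have hstar : star (Pool.Agent.Work.MP_8d13b5_lc.Ex.bet t) = ⟨t, t - 1⟩ := by
    refine Zsqrtd.ext ?_ ?_
    · rfl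
    · show -(1 - t) = t - 1
      ring
  rw [hstar]
  exact h

theorem bounds_of_PB (s₀ : ℕ) (hx : Pool.Agent.Work.MP_8d13b5_lc.Ex.PB s₀) :
    Bounds (11 * s₀) (22 * s₀) (44 * s₀ + 6400000) := by
  refine ⟨?_, ?_, ?_⟩
  · intro m t z ht hz hre hm
    have h := Pool.Agent.Work.MP_8d13b5_lc.Ex.mainE s₀ hx m t z ht hz hre hm
    rwa [yy_real] at h
  · intro ρ T t R lam h W U c hf n hn
    have key := Pool.Agent.Work.MP_8d13b5_lc.Ex.lrsE s₀ hx ρ T t R lam hf.T_ge hf.t_ge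
      (assoc_star hf.assoc) hf.R_ge hf.lam_pos hf.lam_le (by rw [yy_real]; exact hf.gap) h
      hf.monic hf.deg hf.roots W hf.recW U hf.U_ge (by
        intro i hi
        rw [Pool.Agent.Work.MP_8d13b5_lc.Ex.LrsFamX.normSq_le (by linarith [hf.U_ge])]
        exact hf.init i hi) c hf.c_ne n hn
    have e : 22 * (s₀ : ℝ) * T = 22 * T * s₀ := by ring
    rw [e]
    exact key
  · intro u hu hu0 n hn
    have h := Pool.Agent.Work.MP_8d13b5_lc.Ex.zerosE s₀ hx u hu hu0 n hn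
    have e : (∑ j ∈ range 5, |(u j : ℝ)|) = (Pool.Agent.Work.MP_8d13b5_lc.Ex.sz u : ℝ) := by
      unfold Pool.Agent.Work.MP_8d13b5_lc.Ex.sz
      simp only [sum_range_succ, sum_range_zero, zero_add]
      push_cast
      simp only [Nat.cast_natAbs, Int.cast_abs]
    rw [e]
    exact h

theorem bounds_mono {A B C A' B' C' : ℝ} (h : Bounds A B C) (hA : A ≤ A') (hB : B ≤ B')
    (hC : C ≤ C') : Bounds A' B' C' := by
  refine ⟨?_, ?_, ?_⟩
  · intro m t z ht hz hre hm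
    exact h.1 m t z ht hz hre (by linarith)
  · intro ρ T t R lam p W U c hf n hn
    have key := h.2.1 ρ T t R lam p W U c hf n hn
    have hT : B * (T : ℝ) ≤ B' * T := mul_le_mul_of_nonneg_right hB (Nat.cast_nonneg T)
    linarith
  · intro u hu hu0 n hn
    have key := h.2.2 u hu hu0 n hn
    linarith

/-- **An open example of the Skolem Problem of order five, and families of all orders, with explicit
bounds.**

(1), (2), (3): the bounds of `Bounds`, with `10 ^ 92` for each of the numbers `A`, `B`, `C`.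

(4) One primitive recursive procedure decides, given a recurrence and the initial values of an
integer sequence `v` such that `D v n = c + Re (ρ ^ n W n)` for some data of the family and some
`D ≠ 0`, and a number `N` which is at least `T`, `t`, `deg h`, `|c|`, `U` and `1 / lam`, whether `v`
has a zero.

(5) For every `s ≥ 1000` such that `|θ(x) - x| ≤ x / 600` for all real `x ≥ s` (`θ(x)` is the sum of
`log p` over the primes `p ≤ x`), the numbers `11 s`, `22 s`, `44 s + 6400000` are also allowed in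
(1), (2), (3). -/
theorem result :
    Bounds (10 ^ 92) (10 ^ 92) (10 ^ 92) ∧
    (∃ M : (List ℤ × List ℤ) × ℕ → Bool, Primrec M ∧
      ∀ (ρ : GaussianInt) (T : ℕ) (t : ℤ) (R lam : ℝ) (h : GaussianInt[X]) (W : ℕ → GaussianInt)
        (U : ℝ) (c : ℤ), Fam ρ T t R lam h W U c →
      ∀ (D : ℤ) (v : ℕ → ℤ), D ≠ 0 → (∀ n, D * v n = c + (ρ ^ n * W n).re) →
      ∀ a : List ℤ, HasRec a v → ∀ N : ℕ, T ≤ N → (t : ℝ) ≤ N → h.natDegree ≤ N →
        |(c : ℝ)| ≤ N → U ≤ N → 1 / lam ≤ N →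
        (M ((a, (List.range a.length).map v), N) = true ↔ ∃ n, v n = 0)) ∧
    (∀ s : ℕ, 1000 ≤ s → (∀ x : ℝ, (s : ℝ) ≤ x → |Chebyshev.theta x - x| ≤ x / 600) →
      Bounds (11 * s) (22 * s) (44 * s + 6400000)) := by
  refine ⟨?_, ?_, fun s hs hth =>
    bounds_of_PB s (Pool.Agent.Work.MP_8d13b5_lc.Ex.EPrime.PB_of_Th s hs hth)⟩
  · obtain ⟨x₀, hx₀⟩ : ∃ x₀ : ℕ, x₀ = 10 ^ 90 := ⟨_, rfl⟩
    have hx : Pool.Agent.Work.MP_8d13b5_lc.Ex.PB x₀ := by
      rw [hx₀]
      exact Pool.Agent.Work.MP_8d13b5_lc.Ex.PB_explicit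
    have hxR : (x₀ : ℝ) = 10 ^ 90 := by rw [hx₀]; norm_num
    have e1 : 11 * (x₀ : ℝ) ≤ 10 ^ 92 := by rw [hxR]; norm_num
    have e2 : 44 * (x₀ : ℝ) + 6400000 ≤ 10 ^ 92 := by rw [hxR]; norm_num
    have e3 : 22 * (x₀ : ℝ) ≤ 10 ^ 92 := by rw [hxR]; norm_num
    clear hxR hx₀
    exact bounds_mono (bounds_of_PB x₀ hx) e1 e3 e2
  · obtain ⟨M, hM, hdec⟩ := Pool.Agent.Work.MP_8d13b5_lc.Ex.decE
    refine ⟨M, hM, ?_⟩
    intro ρ T t R lam h W U c hf D v hD hv a ha N hT ht hd hc hU hl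
    refine hdec ρ T t R lam hf.T_ge hf.t_ge (assoc_star hf.assoc) hf.R_ge hf.lam_pos hf.lam_le ?_ h
      hf.monic hf.deg hf.roots W hf.recW U hf.U_ge ?_ c hf.c_ne D v hD hv a ha.1 ha.2.1 ha.2.2 N hT hd
      ht hc hU hl
    · rw [yy_real]
      exact hf.gap
    · intro i hi
      rw [Pool.Agent.Work.MP_8d13b5_lc.Ex.LrsFamX.normSq_le (by linarith [hf.U_ge])]
      exact hf.init i hi

end Pool.Agent.Results.MP_8d13b5_lc.GaussianPade
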