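import Pool.Agent.Work.MP_8d13b5_lc.LG.Main

/-!
# MP_8d13b5_lc: the Skolem Problem and Skolem's conjecture for one hundred percent of the locally
# soluble sequences of every simple recurrence
-/

set_option autoImplicit false

open Polynomial Finset

namespace Pool.Agent.Results.MP_8d13b5_lc.LocalGlobal

/-- the last coefficient `c_d` of `c = [c_1, ..., c_d]` -/
def last (c : List ℤ) : ℤ := c.getD (c.length - 1) 0

/-- `u` is the integer sequence with the recurrence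
`u_(n+d) = c_1 u_(n+d-1) + ... + c_d u_n`, `c = [c_1, ..., c_d]`, `d ≥ 1`, `c_d ≠ 0`, and the initial
values `x = [u_0, ..., u_(d-1)]`. -/
structure IsSeq (c x : List ℤ) (u : ℕ → ℤ) : Prop where
  pos : 1 ≤ c.length
  last_ne : last c ≠ 0
  len : x.length = c.length
  init : ∀ i < c.length, u i = x.getD i 0
  recur : ∀ n, u (n + c.length) =
    ∑ j ∈ range c.length, c.getD j 0 * u (n + c.length - 1 - j)

/-- `U` is the extension of `u` to all integers, with rational values and the same recurrence. -/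
def Ext (c : List ℤ) (u : ℕ → ℤ) (U : ℤ → ℚ) : Prop :=
  (∀ n : ℕ, U n = u n) ∧
    ∀ n : ℤ, U (n + c.length) =
      ∑ j ∈ range c.length, (c.getD j 0 : ℚ) * U (n + c.length - 1 - j)

/-- `u_n = 0`, where `n` is an integer (possibly negative). -/
def ZeroAt (c : List ℤ) (u : ℕ → ℤ) (n : ℤ) : Prop := ∃ U : ℤ → ℚ, Ext c u U ∧ U n = 0

/-- `d ≥ 1`, `c_d ≠ 0`, and the characteristic polynomial `X ^ d - c_1 X ^ (d-1) - ... - c_d` has no
multiple roots. -/
def Simple (c : List ℤ) : Prop :=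
  1 ≤ c.length ∧ last c ≠ 0 ∧
    (X ^ c.length - ∑ j ∈ range c.length,
      C ((c.getD j 0 : ℤ) : ℚ) * X ^ (c.length - 1 - j) : ℚ[X]).Separable

/-- `m ≥ 2` is prime to `c_d` and divides no term of `u`. -/
def Modulus (c : List ℤ) (u : ℕ → ℤ) (m : ℕ) : Prop :=
  2 ≤ m ∧ Int.gcd (last c) m = 1 ∧ ∀ n, ¬ (m : ℤ) ∣ u n

/-- The output `w` is right for `u`: `w = (0, n)` and `u_n = 0`; or `w = (1, m)`, `m ≥ 2` is prime to
`c_d` and divides no term; or `w = (2, j)`, `j ≥ 1`, `u_(-j) = 0`, and `u_n ≠ 0` for all `n ≥ 0`. -/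
def Right (c : List ℤ) (u : ℕ → ℤ) (w : ℕ × ℕ) : Prop :=
  (w.1 = 0 ∧ u w.2 = 0) ∨
  (w.1 = 1 ∧ Modulus c u w.2) ∨
  (w.1 = 2 ∧ 1 ≤ w.2 ∧ ZeroAt c u (-(w.2 : ℤ)) ∧ ∀ n, u n ≠ 0)

/-- `u` is locally soluble: every `m ≥ 1` prime to `c_d` divides some term. -/
def LocSol (c : List ℤ) (u : ℕ → ℤ) : Prop :=
  ∀ m : ℕ, 1 ≤ m → Int.gcd (last c) m = 1 → ∃ n, (m : ℤ) ∣ u n

/-- the vectors of `d` integers of absolute value at most `H` -/
def Box (d H : ℕ) : Set (Fin d → ℤ) := {x | ∀ i, |x i| ≤ H}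

/-- the initial vectors in the box of the locally soluble sequences with the recurrence `c` -/
def Loc (c : List ℤ) (H : ℕ) : Set (Fin c.length → ℤ) :=
  {x | x ∈ Box c.length H ∧ ∃ u, IsSeq c (List.ofFn x) u ∧ LocSol c u}

/-- those among them for which `u_n ≠ 0` for all integers `n` -/
def Exc (c : List ℤ) (H : ℕ) : Set (Fin c.length → ℤ) :=
  {x | x ∈ Box c.length H ∧ ∃ u, IsSeq c (List.ofFn x) u ∧ LocSol c u ∧ ∀ n, ¬ ZeroAt c u n}

section proof

theorem box_finite (d H : ℕ) : (Box d H).Finite :=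
  (Set.Finite.pi' fun _ : Fin d => Set.finite_Icc (-(H : ℤ)) (H : ℤ)).subset (by
    intro x hx i
    exact abs_le.1 (hx i))

/-- there are at least `H ^ (d-1)` vectors with `u_0 = 0` in the box -/
theorem card_aux (d : ℕ) (hd : 1 ≤ d) (H : ℕ) (S : Set (Fin d → ℤ)) (hS : S.Finite)
    (h : ∀ x ∈ Box d H, x ⟨0, hd⟩ = 0 → x ∈ S) : (H : ℝ) ^ (d - 1) ≤ (S.ncard : ℝ) := by
  obtain ⟨m, rfl⟩ : ∃ m, d = m + 1 := ⟨d - 1, by omega⟩
  let g : (Fin m → Fin H) → (Fin (m + 1) → ℤ) := fun y => Fin.cons 0 fun i => ((y i : ℕ) : ℤ)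
  have hg : Function.Injective g := by
    intro y y' hyy
    funext i
    have h1 := congrFun hyy i.succ
    simp only [g, Fin.cons_succ] at h1
    apply Fin.ext
    exact_mod_cast h1
  have hsub : Set.range g ⊆ S := by
    rintro _ ⟨y, rfl⟩
    refine h _ (fun i => ?_) rfl
    refine Fin.cases ?_ (fun i => ?_) i
    · simp [g]
    · simp only [g, Fin.cons_succ]
      rw [abs_of_nonneg (by omega)]
      have := (y i).2
      omega
  have h1 : (Set.range g).ncard = H ^ m := by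
    rw [← Set.image_univ, Set.ncard_image_of_injective _ hg, Set.ncard_univ, Nat.card_fun,
      Nat.card_eq_fintype_card, Nat.card_eq_fintype_card, Fintype.card_fin, Fintype.card_fin]
  have h2 := Set.ncard_le_ncard hsub hS
  rw [h1] at h2
  rw [Nat.add_sub_cancel]
  exact_mod_cast h2

theorem exists_seq (c x : List ℤ) (hc : 1 ≤ c.length) (hl : last c ≠ 0)
    (hx : x.length = c.length) : ∃ u, IsSeq c x u := by
  have hv : Pool.Agent.Work.MP_8d13b5_lc.US.valid (c, x) := ⟨hx.symm, hc, hl⟩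
  exact ⟨Pool.Agent.Work.MP_8d13b5_lc.val (c, x), hc, hl, hx, fun i hi =>
    Pool.Agent.Work.MP_8d13b5_lc.US.val_init (c, x) hv i hi, fun n =>
    Pool.Agent.Work.MP_8d13b5_lc.US.val_rec (c, x) hv n⟩

theorem exists_ext {c x : List ℤ} {u : ℕ → ℤ} (h : IsSeq c x u) : ∃ U, Ext c u U := by
  obtain ⟨U, hU, hUu⟩ := Pool.Agent.Work.MP_8d13b5_lc.LG.JExt.exists_ext c h.pos h.last_ne
    (fun n => (u n : ℚ)) (by
      intro n
      have h1 := h.recur n
      beta_reduce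
      rw [h1]
      push_cast
      rfl)
  exact ⟨U, hUu, hU⟩

theorem loc_card (c : List ℤ) (hc : 1 ≤ c.length) (hl : last c ≠ 0) (H : ℕ) :
    (H : ℝ) ^ (c.length - 1) ≤ ((Loc c H).ncard : ℝ) := by
  refine card_aux c.length hc H _ ((box_finite _ H).subset fun x hx => hx.1) fun x hx h0 => ?_
  obtain ⟨u, hu⟩ := exists_seq c (List.ofFn x) hc hl (List.length_ofFn)
  refine ⟨hx, u, hu, fun m _ _ => ⟨0, ?_⟩⟩
  have h1 := hu.init 0 hc
  have h2 : (List.ofFn x).getD 0 0 = x ⟨0, hc⟩ := by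
    rw [List.getD_eq_getElem _ _ (by rw [List.length_ofFn]; exact hc)]
    simp
  rw [h1, h2, h0]
  exact dvd_zero _

end proof

/-- **The Skolem Problem and Skolem's conjecture for one hundred percent of the locally soluble
sequences.**

There is one partial recursive function `A` on the data `(c, x) = (c_1, ..., c_d; u_0, ..., u_(d-1))`
of Q1 with the following properties.

(1) For every input `A` is never wrong: the output is `(0, n)` with `u_n = 0`, or `(1, m)`, where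
`m ≥ 2` is prime to `c_d` and divides no term, or `(2, j)`, where `u_(-j) = 0`, and then
`u_n ≠ 0` for all `n ≥ 0`. It halts if `u_n = 0` for some `n ≥ 0`, and if some `m ≥ 2` prime to `c_d`
divides no term.

(2) For every simple recurrence `c`, every `ε > 0` and all `H ≥ H₀(c, ε)`: `A` halts on `(c, x)` for
all but `ε H ^ (d-1)` of the vectors `x` in `[-H, H] ^ d`. At least `H ^ (d-1)` of these vectors belong
to locally soluble sequences, and the proportion, among the vectors of locally soluble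
sequences, of those for which the sequence has no zero in the integers is at most `ε`. -/
theorem result : ∃ A : List ℤ × List ℤ →. ℕ × ℕ, Partrec A ∧
    (∀ (c x : List ℤ) (u : ℕ → ℤ), IsSeq c x u →
      (∀ w ∈ A (c, x), Right c u w) ∧
      ((∃ n, u n = 0) → (A (c, x)).Dom) ∧ ((∃ m, Modulus c u m) → (A (c, x)).Dom)) ∧
    ∀ c : List ℤ, Simple c → ∀ ε : ℝ, 0 < ε → ∃ H₀ : ℕ, ∀ H : ℕ, H₀ ≤ H →
      ({x | x ∈ Box c.length H ∧ ¬ (A (c, List.ofFn x)).Dom}.ncard : ℝ) ≤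
        ε * (H : ℝ) ^ (c.length - 1) ∧
      (H : ℝ) ^ (c.length - 1) ≤ ((Loc c H).ncard : ℝ) ∧
      ((Exc c H).ncard : ℝ) ≤ ε * ((Loc c H).ncard : ℝ) := by
  obtain ⟨A, hA, h1, h2⟩ := Pool.Agent.Work.MP_8d13b5_lc.LG.lgFinal.1
  have hR : ∀ (c x : List ℤ) (u : ℕ → ℤ), IsSeq c x u → (∀ w ∈ A (c, x), Right c u w) ∧
      ((∃ n, u n = 0) → (A (c, x)).Dom) ∧ ((∃ m, Modulus c u m) → (A (c, x)).Dom) := by
    intro c x u hu
    obtain ⟨h3, h4, h5⟩ := h1 c x u hu.pos hu.len hu.last_ne hu.init hu.recur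
    refine ⟨fun w hw => ?_, h3, h4⟩
    rcases h5 w hw with h | h | h
    · exact Or.inl h
    · exact Or.inr (Or.inl h)
    · obtain ⟨e, h1, hne, U, hU, hUu, h0⟩ := h
      exact Or.inr (Or.inr ⟨e, h1, ⟨U, ⟨hUu, hU⟩, h0⟩, hne⟩)
  refine ⟨A, hA, hR, fun c hc ε hε => ?_⟩
  obtain ⟨H₀, hH⟩ := h2 c hc ε hε
  refine ⟨H₀, fun H hHH => ⟨hH H hHH, loc_card c hc.1 hc.2.1 H, ?_⟩⟩
  have hsub : Exc c H ⊆ {x | x ∈ Box c.length H ∧ ¬ (A (c, List.ofFn x)).Dom} := by
    rintro x ⟨hx, u, hu, hloc, hz⟩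
    refine ⟨hx, fun hd => ?_⟩
    have hw := Part.get_mem hd
    rcases (hR c (List.ofFn x) u hu).1 _ hw with h | h | h
    · obtain ⟨U, hU⟩ := exists_ext hu
      refine hz (((A (c, List.ofFn x)).get hd).2 : ℤ) ⟨U, hU, ?_⟩
      rw [hU.1, h.2, Int.cast_zero]
    · obtain ⟨h2m, hg, hm⟩ := h.2
      obtain ⟨n, hn⟩ := hloc _ (by omega) hg
      exact hm n hn
    · exact hz _ h.2.2.1
  have hle : (Exc c H).ncard ≤ {x | x ∈ Box c.length H ∧ ¬ (A (c, List.ofFn x)).Dom}.ncard :=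
    Set.ncard_le_ncard hsub ((box_finite _ H).subset fun x hx => hx.1)
  have hle' : ((Exc c H).ncard : ℝ) ≤
      (({x | x ∈ Box c.length H ∧ ¬ (A (c, List.ofFn x)).Dom}.ncard : ℕ) : ℝ) := by
    exact_mod_cast hle
  exact hle'.trans ((hH H hHH).trans
    (mul_le_mul_of_nonneg_left (loc_card c hc.1 hc.2.1 H) hε.le))

end Pool.Agent.Results.MP_8d13b5_lc.LocalGlobal
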